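import Pool.Agent.W917.InjTree.Basic

/-!
# The tree of well-ordered thin sets is not special
-/

namespace Pool.Agent.W917.InjTree

open Set

universe u

section

set_option linter.unusedSectionVars false

variable {K : Type u} [LinearOrder K] [WellFoundedLT K]

/-! ### appending one element -/

theorem good_append {A : Set K} {r : K → K → Prop} (h : Good A r) {p : K} (hp : p ∉ A) :
    Good (insert p A) (fun x y => r x y ∨ (x ∈ A ∧ y = p)) := by
  refine ⟨?_, ?_, ?_, ?_⟩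
  · rintro x y (h1 | ⟨h1, h2⟩)
    · exact ⟨mem_insert_of_mem _ (h.sub _ _ h1).1, mem_insert_of_mem _ (h.sub _ _ h1).2⟩
    · exact ⟨mem_insert_of_mem _ h1, by rw [h2]; exact mem_insert _ _⟩
  · have h1 : ∀ x, x ∈ A → Acc (fun x y => r x y ∨ (x ∈ A ∧ y = p)) x := by
      intro x
      induction x using h.wf.induction with
      | _ x ih =>
        intro hx
        refine ⟨_, ?_⟩
        rintro y (hy | ⟨_, hy⟩)
        · exact ih y hy (h.sub _ _ hy).1
        · exact absurd (hy ▸ hx) hp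
    refine ⟨fun x => ?_⟩
    refine ⟨_, ?_⟩
    rintro y (hy | ⟨hy, _⟩)
    · exact h1 y (h.sub _ _ hy).1
    · exact h1 y hy
  · intro x hx y hy
    rcases mem_insert_iff.1 hx with hx | hx
    · rcases mem_insert_iff.1 hy with hy | hy
      · exact Or.inr (Or.inl (hx.trans hy.symm))
      · exact Or.inr (Or.inr (Or.inr ⟨hy, hx⟩))
    · rcases mem_insert_iff.1 hy with hy | hy
      · exact Or.inl (Or.inr ⟨hx, hy⟩)
      · rcases h.tri x hx y hy with h1 | h1 | h1
        · exact Or.inl (Or.inl h1)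
        · exact Or.inr (Or.inl h1)
        · exact Or.inr (Or.inr (Or.inl h1))
  · rintro x y z (h1 | ⟨h1, h2⟩) (h3 | ⟨h3, h4⟩)
    · exact Or.inl (h.tr _ _ _ h1 h3)
    · exact Or.inr ⟨(h.sub _ _ h1).1, h4⟩
    · exact absurd (h2 ▸ (h.sub _ _ h3).1) hp
    · exact absurd (h2 ▸ h3) hp

theorem thin_append {A : Set K} (h : Thin A) {p q : K} (hq : q < p) : Thin (insert p A) := by
  obtain ⟨g, hg⟩ := h
  refine ⟨fun b => max (g b) p, ?_⟩
  intro a ha
  rcases mem_insert_iff.1 ha with rfl | ha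
  · exact ⟨q, hq, le_max_right _ _⟩
  · obtain ⟨b, hb, hb'⟩ := hg a ha
    exact ⟨b, hb, hb'.trans (le_max_left _ _)⟩

/-- beyond any point there is a point omitted by a given thin set -/
theorem exists_omitted (hB : ∀ (a : K) (f : Iic a → K), ∃ b, ∀ x, f x ≤ b)
    (hN : ∀ f : ℕ → K, ∃ b, ∀ n, f n ≤ b) (hM : ∀ a : K, ∃ b, a < b)
    {A : Set K} (h : Thin A) (q : K) : ∃ p, q < p ∧ p ∉ A := by
  obtain ⟨g, hg⟩ := h
  have hstep : ∀ b : K, ∃ b', b < b' ∧ ∀ x, x ≤ b → g x < b' := by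
    intro b
    obtain ⟨c, hc⟩ := hB b (fun x => g x.1)
    obtain ⟨d, hd⟩ := hM (max b c)
    exact ⟨d, lt_of_le_of_lt (le_max_left _ _) hd,
      fun x hx => lt_of_le_of_lt ((hc ⟨x, hx⟩).trans (le_max_right _ _)) hd⟩
  choose nx hnx1 hnx2 using hstep
  let β : ℕ → K := fun n => nx^[n] q
  have hβ : ∀ n, β (n + 1) = nx (β n) := fun n => Function.iterate_succ_apply' nx n q
  obtain ⟨c, hc⟩ := hN β
  obtain ⟨d, hd⟩ := hM c
  have hne : {b | ∀ n, β n < b}.Nonempty := ⟨d, fun n => lt_of_le_of_lt (hc n) hd⟩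
  obtain ⟨p, hp, hpmin⟩ : ∃ p, (∀ n, β n < p) ∧ ∀ y, (∀ n, β n < y) → p ≤ y := by
    refine ⟨wellFounded_lt.min _ hne, wellFounded_lt.min_mem _ hne, ?_⟩
    intro y hy
    exact not_lt.1 (wellFounded_lt.not_lt_min {b | ∀ n, β n < b} hy)
  refine ⟨p, hp 0, fun hpA => ?_⟩
  obtain ⟨b, hb, hb'⟩ := hg p hpA
  have : ∃ n, b ≤ β n := by
    by_contra hcon
    push Not at hcon
    exact absurd (hpmin b hcon) (not_le.2 hb)
  obtain ⟨n, hn⟩ := this
  have h1 := hnx2 (β n) b hn
  rw [← hβ] at h1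
  exact absurd (hb'.trans_lt h1) (not_lt.2 (hp (n + 1)).le)

/-- one step of the construction -/
theorem exists_step (hB : ∀ (a : K) (f : Iic a → K), ∃ b, ∀ x, f x ≤ b)
    (hN : ∀ f : ℕ → K, ∃ b, ∀ n, f n ≤ b) (hM : ∀ a : K, ∃ b, a < b)
    (f : Node K → K) (η : K) (w : Node K) :
    ∃ t : Node K, w < t ∧ (∀ a, a ≤ η → a ∉ w.A → a ∉ t.A) ∧
      ((∃ s : Node K, w < s ∧ (∀ a, a ≤ η → a ∉ w.A → a ∉ s.A) ∧ f s = η) → f t = η) := by
  by_cases hc : ∃ s : Node K, w < s ∧ (∀ a, a ≤ η → a ∉ w.A → a ∉ s.A) ∧ f s = η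
  · obtain ⟨s, h1, h2, h3⟩ := hc
    exact ⟨s, h1, h2, fun _ => h3⟩
  · obtain ⟨p, hp, hp'⟩ := exists_omitted hB hN hM w.thin η
    refine ⟨⟨insert p w.A, _, good_append w.good hp', thin_append w.thin hp⟩, ?_, ?_,
      fun h => absurd h hc⟩
    · rw [Node.lt_iff]
      refine ⟨⟨subset_insert _ _, ?_⟩, ?_⟩
      · intro y hy x
        constructor
        · rintro (h | ⟨_, h⟩)
          · exact h
          · exact absurd (h ▸ hy) hp'
        · intro h; exact Or.inl h
      · intro h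
        exact hp' (h ▸ mem_insert _ _)
    · intro a ha ha' hcon
      rcases mem_insert_iff.1 hcon with h | h
      · rw [h] at ha; exact absurd ha (not_le.2 hp)
      · exact ha' h

/-! ### unions of chains -/

theorem good_union {ι : Type*} (w : ι → Node K) (hw : ∀ i j, w i ≤ w j ∨ w j ≤ w i) :
    Good (⋃ i, (w i).A) (fun x y => ∃ i, (w i).r x y) := by
  have key : ∀ i x y, x ∈ (w i).A → (∃ j, (w j).r y x) → (w i).r y x := by
    rintro i x y hx ⟨j, hj⟩
    rcases hw i j with h | h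
    · exact (h.2 x hx y).1 hj
    · exact (h.2 x ((w j).good.sub _ _ hj).2 y).2 hj
  refine ⟨?_, ?_, ?_, ?_⟩
  · rintro x y ⟨i, hi⟩
    exact ⟨mem_iUnion.2 ⟨i, ((w i).good.sub _ _ hi).1⟩, mem_iUnion.2 ⟨i, ((w i).good.sub _ _ hi).2⟩⟩
  · have h1 : ∀ i x, x ∈ (w i).A → Acc (fun x y => ∃ i, (w i).r x y) x := by
      intro i x
      induction x using (w i).good.wf.induction with
      | _ x ih =>
        intro hx
        refine ⟨_, ?_⟩
        intro y hy
        have := key i x y hx hy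
        exact ih y this ((w i).good.sub _ _ this).1
    refine ⟨fun x => ⟨_, ?_⟩⟩
    rintro y ⟨i, hi⟩
    exact h1 i y ((w i).good.sub _ _ hi).1
  · intro x hx y hy
    obtain ⟨i, hi⟩ := mem_iUnion.1 hx
    obtain ⟨j, hj⟩ := mem_iUnion.1 hy
    rcases hw i j with h | h
    · rcases (w j).good.tri x (h.1 hi) y hj with h1 | h1 | h1
      · exact Or.inl ⟨j, h1⟩
      · exact Or.inr (Or.inl h1)
      · exact Or.inr (Or.inr ⟨j, h1⟩)
    · rcases (w i).good.tri x hi y (h.1 hj) with h1 | h1 | h1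
      · exact Or.inl ⟨i, h1⟩
      · exact Or.inr (Or.inl h1)
      · exact Or.inr (Or.inr ⟨i, h1⟩)
  · rintro x y z ⟨i, hi⟩ ⟨j, hj⟩
    refine ⟨j, ?_⟩
    have hy : y ∈ (w j).A := ((w j).good.sub _ _ hj).1
    exact (w j).good.tr _ _ _ (key j y x hy ⟨i, hi⟩) hj

theorem le_union {ι : Type*} (w : ι → Node K) (hw : ∀ i j, w i ≤ w j ∨ w j ≤ w i)
    (n : Node K) (h1 : n.A = ⋃ i, (w i).A) (h2 : n.r = fun x y => ∃ i, (w i).r x y) (i : ι) :
    w i ≤ n := by
  refine ⟨?_, ?_⟩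
  · rw [h1]; exact subset_iUnion (fun i => (w i).A) i
  · intro y hy x
    rw [h2]
    constructor
    · rintro ⟨j, hj⟩
      rcases hw i j with h | h
      · exact (h.2 y hy x).1 hj
      · exact (h.2 y ((w j).good.sub _ _ hj).2 x).2 hj
    · intro h; exact ⟨i, h⟩

/-- the empty node -/
def emptyNode : Node K where
  A := ∅
  r := fun _ _ => False
  good := ⟨fun _ _ h => h.elim, ⟨fun _ => ⟨_, fun _ h => h.elim⟩⟩, fun _ h => h.elim,
    fun _ _ _ h => h.elim⟩
  thin := ⟨id, fun _ h => h.elim⟩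

open Classical in
/-- the union of a chain of nodes, or junk -/
noncomputable def join {ι : Type*} (w : ι → Node K) : Node K :=
  if h : ∃ n : Node K, n.A = (⋃ i, (w i).A) ∧ n.r = (fun x y => ∃ i, (w i).r x y) then h.choose
  else emptyNode

theorem join_spec {ι : Type*} (w : ι → Node K) (hw : ∀ i j, w i ≤ w j ∨ w j ≤ w i)
    (ht : Thin (⋃ i, (w i).A)) :
    (join w).A = (⋃ i, (w i).A) ∧ (join w).r = (fun x y => ∃ i, (w i).r x y) := by
  have h : ∃ n : Node K, n.A = (⋃ i, (w i).A) ∧ n.r = (fun x y => ∃ i, (w i).r x y) :=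
    ⟨⟨_, _, good_union w hw, ht⟩, rfl, rfl⟩
  unfold join
  rw [dif_pos h]
  exact h.choose_spec

theorem thin_union_bounded (hB : ∀ (a : K) (f : Iic a → K), ∃ b, ∀ x, f x ≤ b) (η : K)
    (w : Iio η → Node K) : Thin (⋃ i, (w i).A) := by
  classical
  choose g hg using fun i => (w i).thin
  have : ∀ b : K, ∃ c : K, ∀ i, g i b ≤ c := by
    intro b
    obtain ⟨c, hc⟩ := hB η (fun x => if h : x.1 < η then g ⟨x.1, h⟩ b else b)
    refine ⟨c, fun i => ?_⟩
    have := hc ⟨i.1, le_of_lt i.2⟩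
    simpa [dif_pos (show i.1 < η from i.2)] using this
  choose G hG using this
  refine ⟨G, ?_⟩
  intro a ha
  obtain ⟨i, hi⟩ := mem_iUnion.1 ha
  obtain ⟨b, hb, hb'⟩ := hg i a hi
  exact ⟨b, hb, hb'.trans (hG b i)⟩

/-- the recursive construction -/
noncomputable def seq (S : K → Node K → Node K) : K → Node K :=
  (wellFounded_lt (α := K)).fix (fun η ih => S η (join (fun ξ : Iio η => ih ξ.1 ξ.2)))

theorem seq_eq (S : K → Node K → Node K) (η : K) :
    seq S η = S η (join (fun ξ : Iio η => seq S ξ.1)) :=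
  (wellFounded_lt (α := K)).fix_eq _ η

theorem nonspecial (hB : ∀ (a : K) (f : Iic a → K), ∃ b, ∀ x, f x ≤ b)
    (hN : ∀ f : ℕ → K, ∃ b, ∀ n, f n ≤ b) (hM : ∀ a : K, ∃ b, a < b)
    (f : Node K → K) : ∃ s t : Node K, s < t ∧ f s = f t := by
  classical
  choose S hS1 hS2 hS3 using exists_step hB hN hM f
  set v : K → Node K := seq S with hv
  set w : K → Node K := fun η => join (fun ξ : Iio η => v ξ.1) with hw
  have hvw : ∀ η, v η = S η (w η) := by
    intro η
    exact seq_eq S η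
  have hlt : ∀ η, w η < v η := fun η => by rw [hvw]; exact hS1 _ _
  -- the family is increasing
  have hmain : ∀ η, (∀ ξ, ξ < η → v ξ ≤ w η) ∧ (w η).A = ⋃ ξ : Iio η, (v ξ.1).A := by
    intro η
    induction η using WellFoundedLT.induction with
    | _ η ih =>
      have hch : ∀ i j : Iio η, v i.1 ≤ v j.1 ∨ v j.1 ≤ v i.1 := by
        intro i j
        rcases lt_trichotomy i.1 j.1 with h | h | h
        · exact Or.inl (((ih j.1 j.2).1 i.1 h).trans (hlt _).le)
        · exact Or.inl (by rw [h])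
        · exact Or.inr (((ih i.1 i.2).1 j.1 h).trans (hlt _).le)
      have hth := thin_union_bounded hB η (fun ξ : Iio η => v ξ.1)
      have hsp := join_spec (fun ξ : Iio η => v ξ.1) hch hth
      exact ⟨fun ξ hξ => le_union (fun ξ : Iio η => v ξ.1) hch _ hsp.1 hsp.2 ⟨ξ, hξ⟩, hsp.1⟩
  have hmono : ∀ ξ η, ξ < η → v ξ < v η := fun ξ η h => ((hmain η).1 ξ h).trans_lt (hlt η)
  have hch : ∀ i j : K, v i ≤ v j ∨ v j ≤ v i := by
    intro i j
    rcases lt_trichotomy i j with h | h | h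
    · exact Or.inl (hmono _ _ h).le
    · exact Or.inl (by rw [h])
    · exact Or.inr (hmono _ _ h).le
  -- forbidden elements stay out
  have hforb : ∀ ξ a, a ≤ ξ → a ∉ (w ξ).A → ∀ η, a ∉ (v η).A := by
    intro ξ a ha ha' η
    induction η using WellFoundedLT.induction with
    | _ η ih =>
      rcases lt_or_ge η ξ with h | h
      · intro hc
        apply ha'
        rw [(hmain ξ).2]
        exact mem_iUnion.2 ⟨⟨η, h⟩, hc⟩
      · have h1 : a ∉ (w η).A := by
          rw [(hmain η).2]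
          intro hc
          obtain ⟨i, hi⟩ := mem_iUnion.1 hc
          exact ih i.1 i.2 hi
        rw [hvw]
        exact hS2 η (w η) a (ha.trans h) h1
  -- the full union is thin
  have hthin : Thin (⋃ i, (v i).A) := by
    choose g hg using fun i => (v i).thin
    have : ∀ b : K, ∃ c : K, ∀ i, i ≤ b → ∀ x, x ≤ b → g i x ≤ c := by
      intro b
      have h1 : ∀ i : K, ∃ c, ∀ x, x ≤ b → g i x ≤ c := by
        intro i
        obtain ⟨c, hc⟩ := hB b (fun x => g i x.1)
        exact ⟨c, fun x hx => hc ⟨x, hx⟩⟩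
      choose c hc using h1
      obtain ⟨d, hd⟩ := hB b (fun x => c x.1)
      exact ⟨d, fun i hi x hx => (hc i x hx).trans (hd ⟨i, hi⟩)⟩
    choose G hG using this
    refine ⟨G, ?_⟩
    intro a ha
    by_contra hcon
    push Not at hcon
    have h1 : ∀ ξ, ξ < a → a ∉ (v ξ).A := by
      intro ξ hξ hc
      obtain ⟨b, hb, hb'⟩ := hg ξ a hc
      have h2 := hG (max ξ b) ξ (le_max_left _ _) b (le_max_right _ _)
      have h3 := hcon (max ξ b) (max_lt hξ hb)
      exact absurd (hb'.trans h2) (not_le.2 h3)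
    have h2 : a ∉ (w a).A := by
      rw [(hmain a).2]
      intro hc
      obtain ⟨i, hi⟩ := mem_iUnion.1 hc
      exact h1 i.1 i.2 hi
    obtain ⟨i, hi⟩ := mem_iUnion.1 ha
    exact hforb a a le_rfl h2 i hi
  set T : Node K := ⟨_, _, good_union v hch, hthin⟩ with hT
  have hvT : ∀ i, v i ≤ T := fun i => le_union v hch T rfl rfl i
  have hvT' : ∀ i, v i < T := by
    intro i
    obtain ⟨j, hj⟩ := hM i
    exact (hmono i j hj).trans_le (hvT j)
  refine ⟨v (f T), T, hvT' _, ?_⟩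
  have := hS3 (f T) (w (f T)) ⟨T, (hlt _).trans (hvT' _), ?_, rfl⟩
  · rw [← hvw] at this; exact this
  · intro a ha ha' hc
    obtain ⟨i, hi⟩ := mem_iUnion.1 hc
    exact hforb (f T) a ha ha' i hi

end

end Pool.Agent.W917.InjTree
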