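import Mathlib.SetTheory.Cardinal.Regular
import Mathlib.Order.OrderIsoNat
import Mathlib.Data.Set.Card

/-!
# The tree of well-ordered thin subsets of a regular cardinal

`K` is a well-order.  A node is a thin (that is, nonstationary) subset `A` of `K` together with a
well-order `r` of `A`; nodes are ordered by end-extension.  Equivalently nodes are the injections
`α → K` (`α` an ordinal) with thin range.
-/

namespace Pool.Agent.W917.InjTree

open Set

universe u

/-- `A` is thin: it omits every `α` closed under some function `g`. -/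
def Thin {K : Type u} [LinearOrder K] (A : Set K) : Prop :=
  ∃ g : K → K, ∀ a ∈ A, ∃ b, b < a ∧ a ≤ g b

/-- `r` is a strict well-order with field `A`. -/
structure Good {K : Type u} (A : Set K) (r : K → K → Prop) : Prop where
  sub : ∀ x y, r x y → x ∈ A ∧ y ∈ A
  wf : WellFounded r
  tri : ∀ x ∈ A, ∀ y ∈ A, r x y ∨ x = y ∨ r y x
  tr : ∀ x y z, r x y → r y z → r x z

/-- The nodes of the tree. -/
structure Node (K : Type u) [LinearOrder K] where
  /-- the underlying set -/
  A : Set K
  /-- the well-order -/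
  r : K → K → Prop
  good : Good A r
  thin : Thin A

section

set_option linter.unusedSectionVars false

variable {K : Type u} [LinearOrder K]

theorem Node.ext' {s t : Node K} (h1 : s.A = t.A) (h2 : s.r = t.r) : s = t := by
  cases s; cases t; simp at h1 h2; subst h1; subst h2; rfl

theorem Good.irr {A : Set K} {r : K → K → Prop} (h : Good A r) (x : K) : ¬ r x x := by
  intro hx
  exact h.wf.irrefl.irrefl x hx

theorem Good.asym {A : Set K} {r : K → K → Prop} (h : Good A r) {x y : K} (h1 : r x y)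
    (h2 : r y x) : False := h.irr x (h.tr _ _ _ h1 h2)

/-- end-extension -/
def Ext (A : Set K) (r : K → K → Prop) (B : Set K) (q : K → K → Prop) : Prop :=
  A ⊆ B ∧ ∀ y ∈ A, ∀ x, q x y ↔ r x y

instance : PartialOrder (Node K) where
  le s t := Ext s.A s.r t.A t.r
  le_refl s := ⟨Subset.rfl, fun _ _ _ => Iff.rfl⟩
  le_trans s t w h1 h2 := ⟨h1.1.trans h2.1, fun y hy x => (h2.2 y (h1.1 hy) x).trans (h1.2 y hy x)⟩
  le_antisymm s t h1 h2 := by
    have hA : s.A = t.A := Subset.antisymm h1.1 h2.1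
    refine Node.ext' hA ?_
    funext x y
    by_cases hy : y ∈ s.A
    · exact propext (h1.2 y hy x).symm
    · have hy' : y ∉ t.A := hA ▸ hy
      apply propext
      constructor
      · intro h; exact absurd (s.good.sub _ _ h).2 hy
      · intro h; exact absurd (t.good.sub _ _ h).2 hy'

theorem Node.le_def {s t : Node K} : s ≤ t ↔ s.A ⊆ t.A ∧ ∀ y ∈ s.A, ∀ x, t.r x y ↔ s.r x y :=
  Iff.rfl

/-- `A` is an initial segment in the order of `t`. -/
theorem Node.down {s t : Node K} (h : s ≤ t) {x y : K} (hy : y ∈ s.A) (hx : t.r x y) :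
    x ∈ s.A := (s.good.sub _ _ ((h.2 y hy x).1 hx)).1

theorem Node.lt_iff {s t : Node K} : s < t ↔ s ≤ t ∧ s.A ≠ t.A := by
  constructor
  · intro h
    refine ⟨h.le, fun hA => h.ne ?_⟩
    refine Node.ext' hA ?_
    funext x y
    by_cases hy : y ∈ s.A
    · exact propext (h.le.2 y hy x).symm
    · have hy' : y ∉ t.A := hA ▸ hy
      apply propext
      constructor
      · intro h; exact absurd (s.good.sub _ _ h).2 hy
      · intro h; exact absurd (t.good.sub _ _ h).2 hy'
  · rintro ⟨h1, h2⟩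
    exact lt_of_le_of_ne h1 (fun h => h2 (h ▸ rfl))

theorem Node.exists_mem {s t : Node K} (h : s < t) : ∃ x ∈ t.A, x ∉ s.A := by
  obtain ⟨h1, h2⟩ := Node.lt_iff.1 h
  by_contra hc
  push Not at hc
  exact h2 (Subset.antisymm h1.1 hc)

theorem Node.le_of_subset {s s' t : Node K} (h : s ≤ t) (h' : s' ≤ t) (hA : s.A ⊆ s'.A) :
    s ≤ s' :=
  ⟨hA, fun y hy x => (h'.2 y (hA hy) x).symm.trans (h.2 y hy x)⟩

theorem Node.comparable {s s' t : Node K} (h : s ≤ t) (h' : s' ≤ t) : s ≤ s' ∨ s' ≤ s := by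
  by_cases hc : s.A ⊆ s'.A
  · exact Or.inl (Node.le_of_subset h h' hc)
  · right
    rw [Set.not_subset] at hc
    obtain ⟨a, ha, ha'⟩ := hc
    refine Node.le_of_subset h' h ?_
    intro y hy
    rcases t.good.tri a (h.1 ha) y (h'.1 hy) with h1 | h1 | h1
    · exact absurd (Node.down h' hy h1) ha'
    · exact h1 ▸ ha
    · exact Node.down h ha h1

/-- first new element -/
theorem Node.exists_first {s t : Node K} (h : s < t) :
    ∃ x, (x ∈ t.A ∧ x ∉ s.A) ∧ ∀ y, y ∈ t.A → y ∉ s.A → ¬ t.r y x := by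
  obtain ⟨x, hx, hx'⟩ := Node.exists_mem h
  have hne : {x | x ∈ t.A ∧ x ∉ s.A}.Nonempty := ⟨x, hx, hx'⟩
  refine ⟨t.good.wf.min _ hne, t.good.wf.min_mem _ hne, ?_⟩
  intro y hy hy'
  exact t.good.wf.not_lt_min _ (⟨hy, hy'⟩ : y ∈ {x | x ∈ t.A ∧ x ∉ s.A})

theorem Node.tree (t : Node K) : IsWellOrder (Iio t) (· < ·) := by
  have htri : ∀ a b : Iio t, a < b ∨ a = b ∨ b < a := by
    intro a b
    rcases Node.comparable (le_of_lt a.2) (le_of_lt b.2) with h | h
    · rcases lt_or_eq_of_le h with h | h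
      · exact Or.inl h
      · exact Or.inr (Or.inl (Subtype.ext h))
    · rcases lt_or_eq_of_le h with h | h
      · exact Or.inr (Or.inr h)
      · exact Or.inr (Or.inl (Subtype.ext h.symm))
  have hwf : WellFounded ((· < ·) : Iio t → Iio t → Prop) := by
    choose f hf using fun s : Iio t => Node.exists_first s.2
    refine Subrelation.wf ?_ (InvImage.wf f t.good.wf)
    intro a b hab
    show t.r (f a) (f b)
    have hab' : a.1 < b.1 := hab
    have hb : b.1 ≤ t := le_of_lt b.2
    have h1 : f a ∈ b.1.A := by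
      obtain ⟨x, hx, hx'⟩ := Node.exists_mem hab'
      rcases t.good.tri x (hb.1 hx) (f a) (hf a).1.1 with h | h | h
      · exact absurd h ((hf a).2 x (hb.1 hx) hx')
      · exact h ▸ hx
      · exact Node.down hb hx h
    rcases t.good.tri (f a) (hf a).1.1 (f b) (hf b).1.1 with h | h | h
    · exact h
    · exact absurd (h ▸ h1) (hf b).1.2
    · exact absurd (Node.down hb h1 h) (hf b).1.2
  exact { wf := hwf, trichotomous := fun a b => by
            intro h1 h2
            rcases htri a b with h | h | h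
            · exact absurd h h1
            · exact h
            · exact absurd h h2 }

end

/-! ### left-to-right minima -/

section LR

variable {K : Type u} [LinearOrder K] [WellFoundedLT K]

/-- The left-to-right minima of `D` in the order `r`. -/
def LR (r : K → K → Prop) (D : Set K) : Set K := {x | x ∈ D ∧ ∀ y ∈ D, r y x → x < y}

theorem LR_finite {A : Set K} {r : K → K → Prop} (hr : Good A r) {D : Set K} (hD : D ⊆ A) :
    (LR r D).Finite := by
  have h1 : WellFoundedLT (LR r D) := inferInstance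
  have h2 : WellFoundedGT (LR r D) := by
    refine ⟨Subrelation.wf ?_ (InvImage.wf (fun x : LR r D => x.1) hr.wf)⟩
    intro a b hab
    show r a.1 b.1
    have hab' : b.1 < a.1 := hab
    rcases hr.tri a.1 (hD a.2.1) b.1 (hD b.2.1) with h | h | h
    · exact h
    · exact absurd h (ne_of_gt hab')
    · exact absurd (a.2.2 b.1 b.2.1 h) (not_lt.2 hab'.le)
  have h3 : Finite (LR r D) := Finite.of_wellFoundedLT_wellFoundedGT (LR r D)
  exact Set.toFinite (LR r D)

/-- the colour of a pair of nodes: the number of left-to-right minima of the new part -/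
noncomputable def col (s t : Node K) : ℕ := (LR t.r (t.A \ s.A)).ncard

/-- Main combinatorial fact: below two nodes `s < t` there is no homogeneous chain of type `K`
whose union stays inside `s`. -/
theorem no_chain (hB : ∀ (a : K) (f : Iic a → K), ∃ b, ∀ x, f x ≤ b)
    (hM : ∀ a : K, ∃ b, a < b) [Nonempty K]
    (x : K → Node K) (hx : StrictMono x) (s t : Node K) (hs : ∀ i, x i < s) (hst : s < t)
    (n : ℕ) (h1 : ∀ i j, i < j → col (x i) (x j) = n) (h2 : ∀ i, col (x i) t = n) : False := by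
  classical
  -- the union of the chain
  set V : Set K := {a | ∃ i, a ∈ (x i).A} with hV
  have hxt : ∀ i, x i ≤ t := fun i => (hs i).le.trans hst.le
  have hVt : V ⊆ t.A := by
    rintro a ⟨i, hi⟩; exact (hxt i).1 hi
  have hVs : V ⊆ s.A := by
    rintro a ⟨i, hi⟩; exact (hs i).le.1 hi
  obtain ⟨p, hp, hp'⟩ := Node.exists_mem hst
  have hpV : p ∉ V := fun h => hp' (hVs h)
  -- the first element of `t.A \ V`
  have hne : {a | a ∈ t.A ∧ a ∉ V}.Nonempty := ⟨p, hp, hpV⟩
  obtain ⟨a0, ha0, ha0min⟩ : ∃ a0, (a0 ∈ t.A ∧ a0 ∉ V) ∧ ∀ y, y ∈ t.A → y ∉ V → ¬ t.r y a0 := by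
    refine ⟨t.good.wf.min _ hne, t.good.wf.min_mem _ hne, ?_⟩
    intro y hy hy'
    exact t.good.wf.not_lt_min _ (⟨hy, hy'⟩ : y ∈ {a | a ∈ t.A ∧ a ∉ V})
  -- `V` is downward closed
  have hVdown : ∀ y ∈ V, ∀ z, t.r z y → z ∈ V := by
    rintro y ⟨i, hi⟩ z hz
    exact ⟨i, Node.down (hxt i) hi hz⟩
  -- choose a stage after which everything new is above `a0`
  obtain ⟨i, hi⟩ : ∃ i, ∀ a ∈ V, a ≤ a0 → a ∈ (x i).A := by
    choose f hf using fun a : V => a.2
    obtain ⟨b, hb⟩ := hB a0 (fun y => if h : y.1 ∈ V then f ⟨y.1, h⟩ else Classical.arbitrary K)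
    refine ⟨b, fun a ha haa => ?_⟩
    have := hb ⟨a, haa⟩
    simp only [dif_pos ha] at this
    exact (hx.monotone this).1 (hf ⟨a, ha⟩)
  obtain ⟨j, hij⟩ := hM i
  have hcard1 := h1 i j hij
  have hcard2 := h2 i
  -- the left-to-right minima at `j` are also left-to-right minima at `t`
  have hsub : insert a0 (LR (x j).r ((x j).A \ (x i).A)) ⊆ LR t.r (t.A \ (x i).A) := by
    intro a ha
    rcases mem_insert_iff.1 ha with rfl | ha
    · refine ⟨⟨ha0.1, fun h => ha0.2 ⟨i, h⟩⟩, ?_⟩
      rintro y ⟨hy1, hy2⟩ hya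
      have hyV : y ∈ V := by
        by_contra hyV
        exact ha0min y hy1 hyV hya
      by_contra hlt
      exact hy2 (hi y hyV (not_lt.1 hlt))
    · refine ⟨⟨(hxt j).1 ha.1.1, ha.1.2⟩, ?_⟩
      rintro y ⟨hy1, hy2⟩ hya
      have hyj : y ∈ (x j).A := Node.down (hxt j) ha.1.1 hya
      exact ha.2 y ⟨hyj, hy2⟩ (((hxt j).2 a ha.1.1 y).1 hya)
  have hfin : (LR t.r (t.A \ (x i).A)).Finite := LR_finite t.good sdiff_subset
  have hfin' : (LR (x j).r ((x j).A \ (x i).A)).Finite := LR_finite (x j).good sdiff_subset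
  have hnot : a0 ∉ LR (x j).r ((x j).A \ (x i).A) := fun h => ha0.2 ⟨j, h.1.1⟩
  have hle := Set.ncard_le_ncard hsub hfin
  rw [Set.ncard_insert_of_notMem hnot hfin'] at hle
  unfold col at hcard1 hcard2
  omega

end LR

end Pool.Agent.W917.InjTree
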