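import Mathlib.SetTheory.Cardinal.Regular
import Mathlib.SetTheory.Ordinal.Family
import Mathlib.SetTheory.Ordinal.Exponential
import Pool.Agent.W917.InjTree.NonSpecial

/-!
# The tree for a regular uncountable cardinal
-/

namespace Pool.Agent.W917.InjTree

open Cardinal Ordinal Set

universe u

section

variable {κ : Cardinal.{u}}

theorem bdd_of_lt (hκ : κ.IsRegular) {ι : Type u} (hι : #ι < κ) (f : ι → κ.ord.ToType) :
    ∃ b, ∀ x, f x ≤ b := by
  by_contra hcon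
  push Not at hcon
  have hcof : IsCofinal (Set.range f) := by
    intro b
    obtain ⟨x, hx⟩ := hcon b
    exact ⟨f x, ⟨x, rfl⟩, hx.le⟩
  have h1 := Order.cof_le hcof
  rw [Ordinal.cof_toType, hκ.cof_ord] at h1
  exact absurd (h1.trans mk_range_le) (not_le.2 hι)

theorem noMax (h0 : ℵ₀ ≤ κ) (a : κ.ord.ToType) : ∃ b, a < b := by
  have := Cardinal.noMaxOrder h0
  exact exists_gt a

theorem mk_Iic_lt' (h0 : ℵ₀ ≤ κ) (a : κ.ord.ToType) : #(Set.Iic a) < κ := by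
  obtain ⟨a', ha'⟩ := noMax h0 a
  have h1 : #(Set.Iio a') < #(κ.ord.ToType) := mk_Iio_lt a' (by simp)
  rw [mk_ord_toType] at h1
  exact (mk_le_mk_of_subset (fun x hx => lt_of_le_of_lt hx ha')).trans_lt h1

theorem bdd_Iic (hκ : κ.IsRegular) (a : κ.ord.ToType) (f : Set.Iic a → κ.ord.ToType) :
    ∃ b, ∀ x, f x ≤ b := bdd_of_lt hκ (mk_Iic_lt' hκ.aleph0_le a) f

theorem bdd_nat (hκ : κ.IsRegular) (h0 : ℵ₀ < κ) (f : ℕ → κ.ord.ToType) :
    ∃ b, ∀ x, f x ≤ b := by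
  obtain ⟨b, hb⟩ := bdd_of_lt hκ (ι := ULift.{u} ℕ) (by simpa using h0) (fun x => f x.down)
  exact ⟨b, fun n => hb ⟨n⟩⟩

end

/-- the witnessing tree -/
abbrev Tr (κ : Cardinal.{u}) : Type u := Node κ.ord.ToType

theorem tr_not_special {κ : Cardinal.{u}} (hκ : κ.IsRegular) (h0 : ℵ₀ < κ) {L : Type u}
    (hL : #L ≤ κ) (f : Tr κ → L) : ∃ s t : Tr κ, s < t ∧ f s = f t := by
  have hc : #L ≤ #(κ.ord.ToType) := by rw [mk_ord_toType]; exact hL
  obtain ⟨e⟩ := (Cardinal.le_def _ _).1 hc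
  obtain ⟨s, t, hst, hft⟩ := nonspecial (bdd_Iic hκ) (bdd_nat hκ h0) (noMax hκ.aleph0_le)
    (fun x => e (f x))
  exact ⟨s, t, hst, e.injective hft⟩

/-- no homogeneous chain of type `κ + 2` for the colouring `col` -/
theorem tr_no_chain {κ : Cardinal.{u}} (hκ : κ.IsRegular) {α : Ordinal.{u}}
    (hα : κ.ord + 2 ≤ α) (g : Set.Iio α → Tr κ) (hg : StrictMono g) (i : ℕ)
    (hi : ∀ a b, a < b → col (g a) (g b) = i) : False := by
  have hs : κ.ord < α := lt_of_lt_of_le (by simp) hα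
  have ht : κ.ord + 1 < α := lt_of_lt_of_le (by
    rw [← one_add_one_eq_two, ← add_assoc]; exact lt_add_one _) hα
  have : Nonempty κ.ord.ToType := by
    rw [Ordinal.nonempty_toType_iff]
    exact hκ.ord_pos.ne'
  have hx : ∀ a : κ.ord.ToType, (ToType.mk.symm a : Set.Iio κ.ord).1 < κ.ord := fun a =>
    (ToType.mk.symm a).2
  let x : κ.ord.ToType → Set.Iio α := fun a => ⟨(ToType.mk.symm a : Set.Iio κ.ord).1, (hx a).trans hs⟩
  have hxm : StrictMono x := by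
    intro a b hab
    exact (ToType.mk.symm.strictMono hab : _)
  have hxs : ∀ a, x a < ⟨κ.ord, hs⟩ := fun a => hx a
  have hst : (⟨κ.ord, hs⟩ : Set.Iio α) < ⟨κ.ord + 1, ht⟩ := by
    show κ.ord < κ.ord + 1
    exact lt_add_one _
  refine no_chain (bdd_Iic hκ) (noMax hκ.aleph0_le) (fun a => g (x a))
    (fun a b hab => hg (hxm hab)) (g ⟨κ.ord, hs⟩) (g ⟨κ.ord + 1, ht⟩) (fun a => hg (hxs a))
    (hg hst) i ?_ ?_
  · intro a b hab
    exact hi _ _ (hxm hab)
  · intro a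
    exact hi _ _ ((hxs a).trans hst)

end Pool.Agent.W917.InjTree
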